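import Mathlib

set_option autoImplicit false

open CategoryTheory

namespace Pool.Agent.H277R3.NORE

universe u

/-- bases of all Hom spaces containing the identities -/
structure Dat (k : Type) [Field k] (C : Type) [SmallCategory C] [Preadditive C] [Linear k C] where
  I : C → C → Type
  B : ∀ X Y : C, Module.Basis (I X Y) k (X ⟶ Y)
  e : ∀ X : C, I X X
  he : ∀ X : C, B X X (e X) = 𝟙 X

variable {k : Type} [Field k] {C : Type} [SmallCategory C] [Preadditive C] [Linear k C]

theorem exists_dat (hid : ∀ X : C, 𝟙 X ≠ 0) : Nonempty (Dat k C) := by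
  classical
  have hs : ∀ X Y : C, LinearIndepOn k id {f : X ⟶ Y | ∃ h : X = Y, f = eqToHom h} := by
    intro X Y
    by_cases h : X = Y
    · subst h
      have : {f : X ⟶ X | ∃ h : X = X, f = eqToHom h} = {𝟙 X} := by
        ext f; simp
      rw [this]
      exact LinearIndepOn.singleton (hid X)
    · have : {f : X ⟶ Y | ∃ h : X = Y, f = eqToHom h} = ∅ := by
        ext f; simp [h]
      rw [this]
      exact linearIndepOn_empty k _
  refine ⟨⟨fun X Y => (hs X Y).extend (Set.subset_univ _), fun X Y => Module.Basis.extend (hs X Y),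
    fun X => ⟨𝟙 X, (hs X X).subset_extend (Set.subset_univ _) ⟨rfl, by simp⟩⟩, ?_⟩⟩
  intro X
  rw [Module.Basis.extend_apply_self]

namespace Dat

variable (D : Dat k C)

/-- letters: source, target, index -/
abbrev Lt : Type := Σ (X : C) (Y : C), D.I X Y

def Isid (b : D.Lt) : Prop := ∃ X : C, b = ⟨X, X, D.e X⟩

def Good (Z : C) (w : List D.Lt) : Prop := ∀ b ∈ w.head?, Z ≠ b.2.1

def Red (w : List D.Lt) : Prop :=
  (∀ b ∈ w, ¬ D.Isid b) ∧ w.IsChain (fun b b' => b.1 ≠ b'.2.1)

theorem red_nil : D.Red [] := by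
  simp [Red]

theorem red_cons (b : D.Lt) (t : List D.Lt) :
    D.Red (b :: t) ↔ ¬ D.Isid b ∧ D.Good b.1 t ∧ D.Red t := by
  unfold Red Good
  rw [List.isChain_cons]
  simp only [List.mem_cons, forall_eq_or_imp]
  tauto

theorem red_append (u v : List D.Lt) :
    D.Red (u ++ v) ↔ D.Red u ∧ D.Red v ∧ ∀ l ∈ u.getLast?, ∀ l' ∈ v.head?, l.1 ≠ l'.2.1 := by
  unfold Red
  rw [List.isChain_append]
  simp only [List.mem_append, or_imp, forall_and]
  tauto

/-- reduced words -/
abbrev W : Type := {w : List D.Lt // D.Red w}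

abbrev H : Type := D.W →₀ k

def nil : D.W := ⟨[], D.red_nil⟩

open Classical in
noncomputable def scons (b : D.Lt) (w : D.W) : D.W :=
  if h : D.Red (b :: w.1) then ⟨b :: w.1, h⟩ else w

theorem scons_id {b : D.Lt} (h : D.Isid b) (w : D.W) : D.scons b w = w := by
  unfold scons
  rw [dif_neg]
  intro h'
  exact ((D.red_cons b w.1).1 h').1 h

theorem scons_red {b : D.Lt} {w : D.W} (h : D.Red (b :: w.1)) :
    D.scons b w = ⟨b :: w.1, h⟩ := by
  unfold scons
  rw [dif_pos h]

noncomputable def place (Z Y : C) (w : D.W) : (Z ⟶ Y) →ₗ[k] D.H :=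
  (D.B Z Y).constr k (fun j => Finsupp.single (D.scons ⟨Z, Y, j⟩ w) (1 : k))

theorem place_basis (Z Y : C) (w : D.W) (j : D.I Z Y) :
    D.place Z Y w (D.B Z Y j) = Finsupp.single (D.scons ⟨Z, Y, j⟩ w) (1 : k) := by
  unfold place
  rw [Module.Basis.constr_basis]

theorem place_id (X : C) (w : D.W) : D.place X X w (𝟙 X) = Finsupp.single w (1 : k) := by
  rw [← D.he, place_basis, D.scons_id ⟨X, rfl⟩]

noncomputable def hom (b : D.Lt) : b.1 ⟶ b.2.1 := D.B b.1 b.2.1 b.2.2

open Classical in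
noncomputable def strip (X : C) (w : D.W) : Σ Z : C, (Z ⟶ X) × D.W :=
  match w with
  | ⟨[], h⟩ => ⟨X, 𝟙 X, ⟨[], h⟩⟩
  | ⟨b :: t, h⟩ => if e : b.2.1 = X then
      ⟨b.1, D.hom b ≫ eqToHom e, ⟨t, ((D.red_cons b t).1 h).2.2⟩⟩ else ⟨X, 𝟙 X, ⟨b :: t, h⟩⟩

theorem strip_eq_good (X : C) (w : D.W) (h : D.Good X w.1) : D.strip X w = ⟨X, 𝟙 X, w⟩ := by
  obtain ⟨w, hw⟩ := w
  cases w with
  | nil => rfl
  | cons b t =>
    have : b.2.1 ≠ X := fun e => h b (by simp) e.symm
    simp only [strip]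
    rw [dif_neg this]

theorem strip_cons (b : D.Lt) (t : List D.Lt) (h : D.Red (b :: t)) :
    D.strip b.2.1 ⟨b :: t, h⟩ = ⟨b.1, D.hom b, ⟨t, ((D.red_cons b t).1 h).2.2⟩⟩ := by
  refine (dif_pos rfl).trans ?_
  simp

theorem strip_good (X : C) (w : D.W) : D.Good (D.strip X w).1 (D.strip X w).2.2.1 := by
  by_cases h : D.Good X w.1
  · rw [D.strip_eq_good X w h]; exact h
  · obtain ⟨w, hw⟩ := w
    cases w with
    | nil => exact absurd (by intro b hb; simp at hb) h
    | cons b t =>
      have : b.2.1 = X := by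
        by_contra hne
        apply h
        intro b' hb'
        simp only [List.head?_cons, Option.mem_def, Option.some.injEq] at hb'
        subst hb'
        exact fun e => hne e.symm
      subst this
      rw [D.strip_cons]
      exact ((D.red_cons b t).1 hw).2.1

theorem strip_place (X : C) (w : D.W) :
    D.place (D.strip X w).1 X (D.strip X w).2.2 (D.strip X w).2.1 = Finsupp.single w (1 : k) := by
  by_cases h : D.Good X w.1
  · rw [D.strip_eq_good X w h]; exact D.place_id X w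
  · obtain ⟨w, hw⟩ := w
    cases w with
    | nil => exact absurd (by intro b hb; simp at hb) h
    | cons b t =>
      have : b.2.1 = X := by
        by_contra hne
        apply h
        intro b' hb'
        simp only [List.head?_cons, Option.mem_def, Option.some.injEq] at hb'
        subst hb'
        exact fun e => hne e.symm
      subst this
      rw [D.strip_cons]
      show D.place b.1 b.2.1 _ (D.B b.1 b.2.1 b.2.2) = _
      rw [D.place_basis]
      congr 1
      exact D.scons_red hw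

theorem strip_len (X : C) (w : D.W) : (D.strip X w).2.2.1.length ≤ w.1.length := by
  obtain ⟨w, hw⟩ := w
  cases w with
  | nil => exact le_refl _
  | cons b t =>
    by_cases h : b.2.1 = X
    · have : D.strip X ⟨b :: t, hw⟩ = ⟨b.1, D.hom b ≫ eqToHom h,
          ⟨t, ((D.red_cons b t).1 hw).2.2⟩⟩ := dif_pos h
      rw [this]; simp
    · have : D.strip X ⟨b :: t, hw⟩ = ⟨X, 𝟙 X, ⟨b :: t, hw⟩⟩ := dif_neg h
      rw [this]

noncomputable def L (X Y : C) : (X ⟶ Y) →ₗ[k] (D.H →ₗ[k] D.H) :=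
  (Finsupp.llift D.H k k D.W).toLinearMap ∘ₗ
    LinearMap.pi (fun w => (D.place (D.strip X w).1 Y (D.strip X w).2.2) ∘ₗ
      (Linear.leftComp k Y (D.strip X w).2.1))

theorem L_single (X Y : C) (f : X ⟶ Y) (w : D.W) :
    D.L X Y f (Finsupp.single w (1 : k)) =
      D.place (D.strip X w).1 Y (D.strip X w).2.2 ((D.strip X w).2.1 ≫ f) := by
  simp [L]

theorem L_place {Z Y V : C} (g : Y ⟶ V) (t : D.W) (ht : D.Good Z t.1) (ψ : Z ⟶ Y) :
    D.L Y V g (D.place Z Y t ψ) = D.place Z V t (ψ ≫ g) := by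
  have : (D.L Y V g) ∘ₗ D.place Z Y t = D.place Z V t ∘ₗ Linear.rightComp k Z g := by
    refine (D.B Z Y).ext fun j => ?_
    simp only [LinearMap.comp_apply, Linear.rightComp_apply]
    rw [D.place_basis]
    by_cases hj : D.Isid ⟨Z, Y, j⟩
    · rw [D.scons_id hj, D.L_single]
      obtain ⟨X, hX⟩ := hj
      cases hX
      rw [D.strip_eq_good _ t ht, D.he]
    · have hr : D.Red ((⟨Z, Y, j⟩ : D.Lt) :: t.1) := (D.red_cons _ _).2 ⟨hj, ht, t.2⟩
      rw [D.scons_red hr, D.L_single]
      rw [D.strip_cons ⟨Z, Y, j⟩ t.1 hr]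
      rfl
  exact LinearMap.congr_fun this ψ

theorem L_mul {X Y V : C} (f : X ⟶ Y) (g : Y ⟶ V) (h : D.H) :
    D.L Y V g (D.L X Y f h) = D.L X V (f ≫ g) h := by
  have : (D.L Y V g) ∘ₗ (D.L X Y f) = D.L X V (f ≫ g) := by
    refine Finsupp.lhom_ext' fun w => LinearMap.ext_ring ?_
    simp only [LinearMap.comp_apply, Finsupp.lsingle_apply]
    rw [D.L_single, D.L_single, D.L_place _ _ (D.strip_good X w), Category.assoc]
  exact LinearMap.congr_fun this h

theorem L_id (X : C) : D.L X X (𝟙 X) = LinearMap.id := by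
  refine Finsupp.lhom_ext' fun w => LinearMap.ext_ring ?_
  simp only [LinearMap.comp_apply, Finsupp.lsingle_apply, LinearMap.id_apply]
  rw [D.L_single, Category.comp_id, D.strip_place]

end Dat

end Pool.Agent.H277R3.NORE
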