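import Pool.Agent.H277R3.NORE.A

set_option autoImplicit false

open CategoryTheory

namespace Pool.Agent.H277R3.NORE

variable {k : Type} [Field k] {C : Type} [SmallCategory C] [Preadditive C] [Linear k C]

theorem basis_mem {ι V M : Type} [AddCommGroup V] [Module k V] [AddCommMonoid M] [Module k M]
    (B : Module.Basis ι k V) (F : V →ₗ[k] M) (N : Submodule k M) (h : ∀ i, F (B i) ∈ N) (v : V) :
    F v ∈ N := by
  have h1 : v ∈ Submodule.span k (Set.range B) := by rw [B.span_eq]; trivial
  have h2 : Submodule.span k (Set.range B) ≤ N.comap F := by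
    rw [Submodule.span_le]
    rintro _ ⟨i, rfl⟩
    exact h i
  exact h2 h1

theorem sup_mem {ι M : Type} [AddCommMonoid M] [Module k M] (s : Set ι) (F : (ι →₀ k) →ₗ[k] M)
    (N : Submodule k M) (h : ∀ w ∈ s, F (Finsupp.single w (1 : k)) ∈ N) (x : ι →₀ k)
    (hx : x ∈ Finsupp.supported k k s) : F x ∈ N := by
  rw [Finsupp.supported_eq_span_single] at hx
  have h2 : Submodule.span k ((fun i => Finsupp.single i (1 : k)) '' s) ≤ N.comap F := by
    rw [Submodule.span_le]
    rintro _ ⟨i, hi, rfl⟩
    exact h i hi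
  exact h2 hx

namespace Dat

variable (D : Dat k C)

noncomputable def Lam : List D.Lt → Module.End k D.H
  | [] => 1
  | b :: t => D.L b.1 b.2.1 (D.hom b) * Lam t

noncomputable def La : D.H →ₗ[k] Module.End k D.H :=
  Finsupp.lift (Module.End k D.H) k D.W (fun w => D.Lam w.1)

theorem La_single (w : D.W) : D.La (Finsupp.single w (1 : k)) = D.Lam w.1 := by
  simp [La]

theorem La_place {Z Y : C} (t : D.W) (ht : D.Good Z t.1) (ψ : Z ⟶ Y) :
    D.La (D.place Z Y t ψ) = (D.L Z Y ψ : Module.End k D.H) * D.Lam t.1 := by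
  have : D.La ∘ₗ D.place Z Y t =
      (LinearMap.mulRight k (D.Lam t.1)) ∘ₗ (D.L Z Y : _ →ₗ[k] Module.End k D.H) := by
    refine (D.B Z Y).ext fun j => ?_
    simp only [LinearMap.comp_apply, LinearMap.mulRight_apply]
    rw [D.place_basis]
    by_cases hj : D.Isid ⟨Z, Y, j⟩
    · rw [D.scons_id hj, D.La_single]
      obtain ⟨X, hX⟩ := hj
      cases hX
      rw [D.he, D.L_id]
      rfl
    · have hr : D.Red ((⟨Z, Y, j⟩ : D.Lt) :: t.1) := (D.red_cons _ _).2 ⟨hj, ht, t.2⟩
      rw [D.scons_red hr, D.La_single]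
      rfl
  exact LinearMap.congr_fun this ψ

theorem L_mul' {X Y V : C} (f : X ⟶ Y) (g : Y ⟶ V) :
    (D.L Y V g : Module.End k D.H) * D.L X Y f = D.L X V (f ≫ g) :=
  LinearMap.ext fun h => D.L_mul f g h

/-- the algebra -/
noncomputable def S : Subalgebra k (Module.End k D.H) where
  carrier := {x | ∀ h : D.H, x * D.La h = D.La (x h)}
  mul_mem' := by
    intro x y hx hy h
    rw [mul_assoc, hy h, hx (y h)]
    rfl
  add_mem' := by
    intro x y hx hy h
    rw [add_mul, hx h, hy h, LinearMap.add_apply, map_add]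
  algebraMap_mem' := by
    intro c h
    rw [Algebra.algebraMap_eq_smul_one, smul_mul_assoc, one_mul, LinearMap.smul_apply]
    simp

theorem L_mem_S (X Y : C) (f : X ⟶ Y) : (D.L X Y f : Module.End k D.H) ∈ D.S := by
  intro h
  have : (LinearMap.mulLeft k (D.L X Y f : Module.End k D.H)) ∘ₗ D.La = D.La ∘ₗ (D.L X Y f) := by
    refine Finsupp.lhom_ext' fun w => LinearMap.ext_ring ?_
    simp only [LinearMap.comp_apply, Finsupp.lsingle_apply, LinearMap.mulLeft_apply]
    rw [D.L_single, D.La_place _ (D.strip_good X w)]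
    nth_rewrite 1 [← D.strip_place X w]
    rw [D.La_place _ (D.strip_good X w), ← mul_assoc, D.L_mul']
  exact LinearMap.congr_fun this h

theorem Lam_mem_S (u : List D.Lt) : D.Lam u ∈ D.S := by
  induction u with
  | nil => exact D.S.one_mem
  | cons b t ih => exact D.S.mul_mem (D.L_mem_S _ _ _) ih

theorem La_mem_S (h : D.H) : D.La h ∈ D.S := by
  induction h using Finsupp.induction_linear with
  | zero => rw [map_zero]; exact D.S.zero_mem
  | add f g hf hg => rw [map_add]; exact D.S.add_mem hf hg
  | single w a =>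
    have : (Finsupp.single w a : D.H) = a • Finsupp.single w (1 : k) := by simp
    rw [this, map_smul, D.La_single]
    exact D.S.smul_mem (D.Lam_mem_S _) a

theorem Lam_append (u : List D.Lt) (w : D.W) (h : D.Red (u ++ w.1)) :
    D.Lam u (Finsupp.single w (1 : k)) = Finsupp.single (⟨u ++ w.1, h⟩ : D.W) (1 : k) := by
  induction u with
  | nil => rfl
  | cons b t ih =>
    have h' := (D.red_cons b (t ++ w.1)).1 h
    show D.L b.1 b.2.1 (D.hom b) (D.Lam t (Finsupp.single w (1 : k))) = _
    rw [ih h'.2.2, D.L_single, D.strip_eq_good _ _ h'.2.1]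
    simp only [Category.id_comp]
    show D.place b.1 b.2.1 _ (D.B b.1 b.2.1 b.2.2) = _
    rw [D.place_basis]
    congr 1
    exact D.scons_red (w := ⟨t ++ w.1, h'.2.2⟩) h

theorem La_nil (x : D.H) : D.La x (Finsupp.single D.nil (1 : k)) = x := by
  have : (LinearMap.applyₗ (Finsupp.single D.nil (1 : k) : D.H)) ∘ₗ D.La = LinearMap.id := by
    refine Finsupp.lhom_ext' fun w => LinearMap.ext_ring ?_
    simp only [LinearMap.comp_apply, Finsupp.lsingle_apply, LinearMap.id_apply,
      LinearMap.applyₗ_apply_apply]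
    have h : D.Red (w.1 ++ D.nil.1) := by
      show D.Red (w.1 ++ [])
      rw [List.append_nil]; exact w.2
    rw [D.La_single, D.Lam_append _ _ h]
    congr 1
    exact Subtype.ext (List.append_nil _)
  exact LinearMap.congr_fun this x

theorem L_nil {X Y : C} (f : X ⟶ Y) :
    D.L X Y f (Finsupp.single D.nil (1 : k)) = D.place X Y D.nil f := by
  rw [D.L_single, D.strip_eq_good X D.nil (by intro b hb; simp [nil] at hb)]
  simp only [Category.id_comp]

/-- elements of length at most `n` -/
noncomputable def Hle (n : ℕ) : Submodule k D.H :=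
  Finsupp.supported k k {w : D.W | w.1.length ≤ n}

theorem Hle_mono {m n : ℕ} (h : m ≤ n) : D.Hle m ≤ D.Hle n :=
  Finsupp.supported_mono fun _ hw => le_trans hw h

theorem single_mem (w : D.W) {n : ℕ} (h : w.1.length ≤ n) :
    Finsupp.single w (1 : k) ∈ D.Hle n :=
  Finsupp.single_mem_supported k _ h

theorem coeff_zero {n : ℕ} {x : D.H} (hx : x ∈ D.Hle n) {w : D.W} (hw : n < w.1.length) :
    x w = 0 := by
  by_contra hne
  have := hx (Finsupp.mem_support_iff.2 hne)
  exact absurd (show w.1.length ≤ n from this) (by omega)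

theorem place_mem (Z Y : C) (t : D.W) (ψ : Z ⟶ Y) : D.place Z Y t ψ ∈ D.Hle (t.1.length + 1) := by
  refine basis_mem (D.B Z Y) (D.place Z Y t) _ (fun j => ?_) ψ
  rw [D.place_basis]
  apply D.single_mem
  unfold scons
  split_ifs
  · simp
  · simp

theorem L_mem {X Y : C} (f : X ⟶ Y) {n : ℕ} {x : D.H} (hx : x ∈ D.Hle n) :
    D.L X Y f x ∈ D.Hle (n + 1) := by
  refine sup_mem _ (D.L X Y f) _ (fun w hw => ?_) x hx
  rw [D.L_single]
  refine D.Hle_mono ?_ (D.place_mem _ _ _ _)
  have := D.strip_len X w
  have hw' : w.1.length ≤ n := hw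
  omega

theorem Lam_mem (u : List D.Lt) {n : ℕ} {x : D.H} (hx : x ∈ D.Hle n) :
    D.Lam u x ∈ D.Hle (n + u.length) := by
  induction u with
  | nil => exact hx
  | cons b t ih => exact D.L_mem _ ih

/-- junction not reduced: the length drops -/
theorem Lam_drop (u : List D.Lt) (hu : D.Red u) (w : D.W) (h : ¬ D.Red (u ++ w.1)) :
    ∃ r, r + 1 = u.length + w.1.length ∧ D.Lam u (Finsupp.single w (1 : k)) ∈ D.Hle r := by
  induction u with
  | nil => exact absurd w.2 h
  | cons b t ih =>
    have hu' := (D.red_cons b t).1 hu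
    by_cases ht : D.Red (t ++ w.1)
    · have hg : ¬ D.Good b.1 (t ++ w.1) := by
        intro hg
        exact h ((D.red_cons _ _).2 ⟨hu'.1, hg, ht⟩)
      cases t with
      | cons c t' =>
        exfalso
        apply hg
        intro b' hb'
        exact hu'.2.1 b' (by simpa using hb')
      | nil =>
        obtain ⟨w, hw⟩ := w
        cases w with
        | nil => exact absurd (by intro b' hb'; simp at hb') hg
        | cons c t' =>
          refine ⟨t'.length + 1, by simp; omega, ?_⟩
          have hc : b.1 = c.2.1 := by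
            by_contra hne
            apply hg
            intro b' hb'
            simp only [List.nil_append, List.head?_cons, Option.mem_def, Option.some.injEq] at hb'
            subst hb'
            exact hne
          show D.L b.1 b.2.1 (D.hom b) (Finsupp.single (⟨c :: t', hw⟩ : D.W) (1 : k)) ∈ _
          obtain ⟨b1, b2, b3⟩ := b
          simp only at hc
          subst hc
          rw [D.L_single, D.strip_cons c t' hw]
          exact D.place_mem _ _ _ _
    · obtain ⟨r, hr, hm⟩ := ih hu'.2.2 ht
      refine ⟨r + 1, by simp only [List.length_cons]; omega, ?_⟩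
      exact D.L_mem _ hm

end Dat

end Pool.Agent.H277R3.NORE
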