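import Pool.Agent.H277R3.NORE.B

set_option autoImplicit false

open CategoryTheory

namespace Pool.Agent.H277R3.NORE

variable {k : Type} [Field k] {C : Type} [SmallCategory C] [Preadditive C] [Linear k C]

namespace Dat

variable (D : Dat k C)

open Classical in
theorem top1_basis (m n : ℕ) (u w : D.W) (hu : u.1.length = m) (hw : w.1.length = n)
    (hr : D.Red (u.1 ++ w.1)) (u' w' : D.W) (hu' : u'.1.length ≤ m) (hw' : w'.1.length ≤ n) :
    D.Lam u'.1 (Finsupp.single w' (1 : k)) (⟨u.1 ++ w.1, hr⟩ : D.W) =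
      (Finsupp.single u' (1 : k) u) * (Finsupp.single w' (1 : k) w) := by
  have hlen : (u.1 ++ w.1).length = m + n := by rw [List.length_append, hu, hw]
  by_cases h1 : u'.1.length + w'.1.length < m + n
  · rw [D.coeff_zero (D.Lam_mem u'.1 (D.single_mem w' (le_refl _))) (by
      show w'.1.length + u'.1.length < (u.1 ++ w.1).length
      omega)]
    by_cases h2 : u' = u
    · by_cases h3 : w' = w
      · subst h2; subst h3; omega
      · rw [Finsupp.single_apply, Finsupp.single_apply, if_neg h3, mul_zero]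
    · rw [Finsupp.single_apply, if_neg h2, zero_mul]
  · have e1 : u'.1.length = m := by omega
    have e2 : w'.1.length = n := by omega
    by_cases h2 : D.Red (u'.1 ++ w'.1)
    · rw [D.Lam_append _ _ h2, Finsupp.single_apply, Finsupp.single_apply, Finsupp.single_apply]
      by_cases h3 : u' = u ∧ w' = w
      · obtain ⟨rfl, rfl⟩ := h3
        simp
      · rw [if_neg]
        · by_cases h4 : u' = u
          · have h5 : w' ≠ w := fun h => h3 ⟨h4, h⟩
            rw [if_neg h5, mul_zero]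
          · rw [if_neg h4, zero_mul]
        · intro h4
          have h5 := congrArg Subtype.val h4
          simp only at h5
          obtain ⟨h6, h7⟩ := List.append_inj h5 (by rw [e1, hu])
          exact h3 ⟨Subtype.ext h6, Subtype.ext h7⟩
    · obtain ⟨r, hr1, hr2⟩ := D.Lam_drop u'.1 u'.2 w' h2
      rw [D.coeff_zero hr2 (by
        show r < (u.1 ++ w.1).length
        omega)]
      by_cases h4 : u' = u
      · by_cases h5 : w' = w
        · subst h4; subst h5; exact absurd hr h2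
        · rw [Finsupp.single_apply, Finsupp.single_apply, if_neg h5, mul_zero]
      · rw [Finsupp.single_apply, if_neg h4, zero_mul]

theorem top1 (m n : ℕ) (x y : D.H) (hx : x ∈ D.Hle m) (hy : y ∈ D.Hle n)
    (u w : D.W) (hu : u.1.length = m) (hw : w.1.length = n)
    (hr : D.Red (u.1 ++ w.1)) : D.La x y (⟨u.1 ++ w.1, hr⟩ : D.W) = x u * y w := by
  classical
  -- first in `y` for `x` a basis element
  have h1 : ∀ u' : D.W, u'.1.length ≤ m → ∀ y ∈ D.Hle n,
      D.Lam u'.1 y (⟨u.1 ++ w.1, hr⟩ : D.W) = (Finsupp.single u' (1 : k) u) * y w := by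
    intro u' hu' y hy
    have := sup_mem {w : D.W | w.1.length ≤ n}
      ((Finsupp.lapply (⟨u.1 ++ w.1, hr⟩ : D.W) : D.H →ₗ[k] k) ∘ₗ (D.Lam u'.1) -
        (Finsupp.single u' (1 : k) u) • (Finsupp.lapply w : D.H →ₗ[k] k)) ⊥ (fun w' hw' => by
        rw [Submodule.mem_bot]
        simp only [LinearMap.sub_apply, LinearMap.comp_apply, Finsupp.lapply_apply,
          LinearMap.smul_apply, smul_eq_mul]
        rw [D.top1_basis m n u w hu hw hr u' w' hu' hw', sub_self]) y hy
    rw [Submodule.mem_bot] at this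
    simp only [LinearMap.sub_apply, LinearMap.comp_apply, Finsupp.lapply_apply,
      LinearMap.smul_apply, smul_eq_mul] at this
    exact sub_eq_zero.1 this
  have := sup_mem {w : D.W | w.1.length ≤ m}
      ((Finsupp.lapply (⟨u.1 ++ w.1, hr⟩ : D.W) : D.H →ₗ[k] k) ∘ₗ (LinearMap.applyₗ y) ∘ₗ D.La -
        (y w) • (Finsupp.lapply u : D.H →ₗ[k] k)) ⊥ (fun u' hu' => by
        rw [Submodule.mem_bot]
        simp only [LinearMap.sub_apply, LinearMap.comp_apply, Finsupp.lapply_apply,
          LinearMap.smul_apply, smul_eq_mul, LinearMap.applyₗ_apply_apply]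
        rw [D.La_single, h1 u' hu' y hy, mul_comm, sub_self]) x hx
  rw [Submodule.mem_bot] at this
  simp only [LinearMap.sub_apply, LinearMap.comp_apply, Finsupp.lapply_apply,
    LinearMap.smul_apply, smul_eq_mul, LinearMap.applyₗ_apply_apply] at this
  rw [sub_eq_zero.1 this, mul_comm]

/-- no letter of `u` at the end has source `Y` -/
def GR (Y : C) (u : List D.Lt) : Prop := ∀ l ∈ u.getLast?, l.1 ≠ Y

theorem red_mid {Z Y : C} (u w : D.W) (hu : D.GR Y u.1) (hw : D.Good Z w.1) (j : D.I Z Y)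
    (hj : ¬ D.Isid ⟨Z, Y, j⟩) : D.Red (u.1 ++ (⟨Z, Y, j⟩ : D.Lt) :: w.1) := by
  rw [D.red_append]
  refine ⟨u.2, (D.red_cons _ _).2 ⟨hj, hw, w.2⟩, ?_⟩
  intro l hl l' hl'
  simp only [List.head?_cons, Option.mem_def, Option.some.injEq] at hl'
  subst hl'
  exact hu l hl

theorem Lam_place_id {Z Y : C} (u w : D.W) (j : D.I Z Y) (hj : D.Isid ⟨Z, Y, j⟩) :
    D.Lam u.1 (D.place Z Y w (D.B Z Y j)) ∈ D.Hle (w.1.length + u.1.length) := by
  rw [D.place_basis, D.scons_id hj]
  exact D.Lam_mem _ (D.single_mem _ (le_refl _))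

theorem Lam_place_red {Z Y : C} (u w : D.W) (hu : D.GR Y u.1) (hw : D.Good Z w.1) (j : D.I Z Y)
    (hj : ¬ D.Isid ⟨Z, Y, j⟩) :
    D.Lam u.1 (D.place Z Y w (D.B Z Y j)) =
      Finsupp.single (⟨u.1 ++ (⟨Z, Y, j⟩ : D.Lt) :: w.1, D.red_mid u w hu hw j hj⟩ : D.W)
        (1 : k) := by
  have hr : D.Red ((⟨Z, Y, j⟩ : D.Lt) :: w.1) := (D.red_cons _ _).2 ⟨hj, hw, w.2⟩
  rw [D.place_basis, D.scons_red hr]
  exact D.Lam_append u.1 ⟨_, hr⟩ (D.red_mid u w hu hw j hj)

/-- coefficient extraction, same pair -/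
theorem top2_same {Z Y : C} (u w : D.W) (hu : D.GR Y u.1) (hw : D.Good Z w.1) (j : D.I Z Y)
    (hj : ¬ D.Isid ⟨Z, Y, j⟩) (χ : Z ⟶ Y) :
    D.Lam u.1 (D.place Z Y w χ)
      (⟨u.1 ++ (⟨Z, Y, j⟩ : D.Lt) :: w.1, D.red_mid u w hu hw j hj⟩ : D.W) =
      (D.B Z Y).repr χ j := by
  classical
  have : (Finsupp.lapply (⟨u.1 ++ (⟨Z, Y, j⟩ : D.Lt) :: w.1, D.red_mid u w hu hw j hj⟩ : D.W) :
      D.H →ₗ[k] k) ∘ₗ (D.Lam u.1) ∘ₗ (D.place Z Y w) = (D.B Z Y).coord j := by
    refine (D.B Z Y).ext fun j' => ?_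
    simp only [LinearMap.comp_apply, Finsupp.lapply_apply, Module.Basis.coord_apply,
      Module.Basis.repr_self]
    by_cases hj' : D.Isid ⟨Z, Y, j'⟩
    · rw [D.coeff_zero (D.Lam_place_id u w j' hj') (by simp; omega)]
      rw [Finsupp.single_apply, if_neg]
      rintro rfl
      exact hj hj'
    · rw [D.Lam_place_red u w hu hw j' hj', Finsupp.single_apply, Finsupp.single_apply]
      by_cases h : j' = j
      · subst h; simp
      · rw [if_neg h, if_neg]
        intro h'
        have h5 := congrArg Subtype.val h'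
        simp only at h5
        obtain ⟨-, h7⟩ := List.append_inj h5 rfl
        rw [List.cons_eq_cons] at h7
        have h8 := h7.1
        cases h8
        exact h rfl
  exact LinearMap.congr_fun this χ

/-- coefficient extraction, different pair -/
theorem top2_diff {Z Y Z' Y' : C} (u w u' w' : D.W) (hu : D.GR Y u.1) (hw : D.Good Z w.1)
    (hu' : D.GR Y' u'.1) (hw' : D.Good Z' w'.1) (j : D.I Z Y)
    (hj : ¬ D.Isid ⟨Z, Y, j⟩) (hlu : u'.1.length ≤ u.1.length) (hlw : w'.1.length ≤ w.1.length)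
    (hne : ¬ ((u', Y') = (u, Y) ∧ (w', Z') = (w, Z))) (χ : Z' ⟶ Y') :
    D.Lam u'.1 (D.place Z' Y' w' χ)
      (⟨u.1 ++ (⟨Z, Y, j⟩ : D.Lt) :: w.1, D.red_mid u w hu hw j hj⟩ : D.W) = 0 := by
  classical
  have : (Finsupp.lapply (⟨u.1 ++ (⟨Z, Y, j⟩ : D.Lt) :: w.1, D.red_mid u w hu hw j hj⟩ : D.W) :
      D.H →ₗ[k] k) ∘ₗ (D.Lam u'.1) ∘ₗ (D.place Z' Y' w') = 0 := by
    refine (D.B Z' Y').ext fun j' => ?_
    simp only [LinearMap.comp_apply, Finsupp.lapply_apply, LinearMap.zero_apply]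
    by_cases hj' : D.Isid ⟨Z', Y', j'⟩
    · exact D.coeff_zero (D.Lam_place_id u' w' j' hj') (by simp; omega)
    · rw [D.Lam_place_red u' w' hu' hw' j' hj', Finsupp.single_apply, if_neg]
      intro h'
      have h5 := congrArg Subtype.val h'
      simp only at h5
      have h6 := congrArg List.length h5
      simp only [List.length_append, List.length_cons] at h6
      obtain ⟨h8, h7⟩ := List.append_inj h5 (by omega)
      rw [List.cons_eq_cons] at h7
      obtain ⟨h9, h10⟩ := h7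
      apply hne
      have e1 : Z' = Z := congrArg Sigma.fst h9
      subst e1
      have h11 := eq_of_heq (Sigma.mk.inj h9).2
      have e2 : Y' = Y := congrArg Sigma.fst h11
      subst e2
      exact ⟨by rw [Subtype.ext h8], by rw [Subtype.ext h10]⟩
  exact LinearMap.congr_fun this χ

theorem scal {X Y : C} (f : X ⟶ Y) (hf : f ≠ 0)
    (h : ∀ j : D.I X Y, ¬ D.Isid ⟨X, Y, j⟩ → (D.B X Y).repr f j = 0) :
    ∃ (h : X = Y) (c : k), c ≠ 0 ∧ f = c • eqToHom h := by
  classical
  by_cases hXY : X = Y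
  · subst hXY
    have h1 : ∀ j : D.I X X, j ≠ D.e X → (D.B X X).repr f j = 0 := by
      intro j hj
      apply h
      rintro ⟨X', hX'⟩
      cases hX'
      exact hj rfl
    have h2 : (D.B X X).repr f = Finsupp.single (D.e X) ((D.B X X).repr f (D.e X)) := by
      ext j
      by_cases hj : j = D.e X
      · subst hj; simp
      · rw [h1 j hj, Finsupp.single_apply, if_neg (fun h => hj h.symm)]
    have h3 : f = ((D.B X X).repr f (D.e X)) • 𝟙 X := by
      rw [← D.he, ← (D.B X X).repr.injective.eq_iff, map_smul, (D.B X X).repr_self,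
        Finsupp.smul_single, smul_eq_mul, mul_one]
      exact h2
    refine ⟨rfl, (D.B X X).repr f (D.e X), ?_, ?_⟩
    · intro h0
      rw [h0, zero_smul] at h3
      exact hf h3
    · simpa using h3
  · exfalso
    apply hf
    rw [← (D.B X Y).repr.injective.eq_iff, map_zero]
    ext j
    rw [h j]
    · rfl
    · rintro ⟨X', hX'⟩
      cases hX'
      exact hXY rfl

theorem place_scal {Z Y : C} (w : D.W) (χ : Z ⟶ Y)
    (h : ∀ j : D.I Z Y, ¬ D.Isid ⟨Z, Y, j⟩ → (D.B Z Y).repr χ j = 0) :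
    D.place Z Y w χ ∈ D.Hle w.1.length := by
  by_cases h0 : χ = 0
  · rw [h0, map_zero]; exact Submodule.zero_mem _
  · obtain ⟨rfl, c, -, rfl⟩ := D.scal χ h0 h
    rw [eqToHom_refl, map_smul, D.place_id]
    exact Submodule.smul_mem _ _ (D.single_mem _ (le_refl _))

end Dat

end Pool.Agent.H277R3.NORE
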