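import Pool.Agent.H277R3.NORE.C

set_option autoImplicit false

open CategoryTheory

namespace Pool.Agent.H277R3.NORE

variable {k : Type} [Field k] {C : Type} [SmallCategory C] [Preadditive C] [Linear k C]

namespace Dat

variable (D : Dat k C)

open Classical in
noncomputable def evR (a : C) : (Π₀ p : D.W × C, (a ⟶ p.2)) →ₗ[k] Module.End k D.H :=
  DFinsupp.lsum k (fun p => (LinearMap.mulLeft k (D.Lam p.1.1)) ∘ₗ
    (D.L a p.2 : _ →ₗ[k] Module.End k D.H))

open Classical in
noncomputable def evL (a : C) : (Π₀ q : D.W × C, (q.2 ⟶ a)) →ₗ[k] D.H :=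
  DFinsupp.lsum k (fun q => D.place q.2 a q.1)

open Classical in
theorem evR_eq (a : C) (Φ : Π₀ p : D.W × C, (a ⟶ p.2)) :
    D.evR a Φ = ∑ p ∈ Φ.support, D.Lam p.1.1 * (D.L a p.2 (Φ p) : Module.End k D.H) := by
  unfold evR
  rw [DFinsupp.lsum_apply_apply, DFinsupp.sumAddHom_apply]
  rfl

open Classical in
theorem evL_eq (a : C) (Ψ : Π₀ q : D.W × C, (q.2 ⟶ a)) :
    D.evL a Ψ = ∑ q ∈ Ψ.support, D.place q.2 a q.1 (Ψ q) := by
  unfold evL
  rw [DFinsupp.lsum_apply_apply, DFinsupp.sumAddHom_apply]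
  rfl

theorem Lam_concat (u : List D.Lt) (l : D.Lt) :
    D.Lam (u ++ [l]) = D.Lam u * (D.L l.1 l.2.1 (D.hom l) : Module.End k D.H) := by
  induction u with
  | nil => simp [Lam]
  | cons b t ih =>
    show (D.L b.1 b.2.1 (D.hom b) : Module.End k D.H) * D.Lam (t ++ [l]) =
      (D.L b.1 b.2.1 (D.hom b) : Module.End k D.H) * D.Lam t * _
    rw [ih, mul_assoc]

def okR (a : C) (m : ℕ) : Submodule k (Π₀ p : D.W × C, (a ⟶ p.2)) where
  carrier := {Φ | ∀ p : D.W × C, ¬ (D.GR p.2 p.1.1 ∧ p.1.1.length + 1 ≤ m) → Φ p = 0}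
  zero_mem' := by intro p _; rfl
  add_mem' := by
    intro Φ Ψ h1 h2 p hp
    rw [DFinsupp.add_apply, h1 p hp, h2 p hp, add_zero]
  smul_mem' := by
    intro c Φ h1 p hp
    rw [DFinsupp.smul_apply, h1 p hp, smul_zero]

def okL (a : C) (n : ℕ) : Submodule k (Π₀ q : D.W × C, (q.2 ⟶ a)) where
  carrier := {Φ | ∀ p : D.W × C, ¬ (D.Good p.2 p.1.1 ∧ p.1.1.length + 1 ≤ n) → Φ p = 0}
  zero_mem' := by intro p _; rfl
  add_mem' := by
    intro Φ Ψ h1 h2 p hp
    rw [DFinsupp.add_apply, h1 p hp, h2 p hp, add_zero]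
  smul_mem' := by
    intro c Φ h1 p hp
    rw [DFinsupp.smul_apply, h1 p hp, smul_zero]

open Classical in
theorem expR (a : C) (m : ℕ) (x : D.H)
    (hx : x ∈ Finsupp.supported k k {w : D.W | w.1.length ≤ m ∧ (w.1.length = m → ¬ D.GR a w.1)}) :
    ∃ Φ ∈ D.okR a m, D.evR a Φ = D.La x := by
  have key : ∀ w : D.W, w.1.length ≤ m → (w.1.length = m → ¬ D.GR a w.1) →
      ∃ Φ ∈ D.okR a m, D.evR a Φ = D.La (Finsupp.single w (1 : k)) := by
    intro w h1 h2
    rw [D.La_single]
    by_cases hg : D.GR a w.1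
    · have h3 : w.1.length + 1 ≤ m := by
        rcases Nat.lt_or_ge w.1.length m with h | h
        · exact h
        · exact absurd hg (h2 (le_antisymm h1 h))
      refine ⟨DFinsupp.single (w, a) (𝟙 a), ?_, ?_⟩
      · intro p hp
        rw [DFinsupp.single_apply, dif_neg]
        rintro rfl
        exact hp ⟨hg, h3⟩
      · unfold evR
        rw [DFinsupp.lsum_single]
        simp only [LinearMap.comp_apply, LinearMap.mulLeft_apply]
        rw [D.L_id]
        exact mul_one _
    · obtain ⟨w, hw⟩ := w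
      rcases List.eq_nil_or_concat w with h | ⟨u, l, h⟩
      · subst h
        exact absurd (by intro l hl; simp at hl) hg
      · rw [List.concat_eq_append] at h
        subst h
        have hl : l.1 = a := by
          by_contra hne
          apply hg
          intro l' hl'
          simp only [List.getLast?_append, List.getLast?_singleton, Option.some_or,
            Option.mem_def, Option.some.injEq] at hl'
          subst hl'
          exact hne
        obtain ⟨a', b, j⟩ := l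
        simp only at hl
        subst hl
        have hr := (D.red_append u [(⟨a', b, j⟩ : D.Lt)]).1 hw
        refine ⟨DFinsupp.single ((⟨u, hr.1⟩ : D.W), b) (D.B a' b j), ?_, ?_⟩
        · intro p hp
          rw [DFinsupp.single_apply, dif_neg]
          rintro rfl
          refine hp ⟨fun l hl => ?_, ?_⟩
          · exact hr.2.2 l hl (⟨a', b, j⟩ : D.Lt) (by simp)
          · simpa using h1
        · unfold evR
          rw [DFinsupp.lsum_single]
          simp only [LinearMap.comp_apply, LinearMap.mulLeft_apply]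
          rw [D.Lam_concat]
          rfl
  have h3 := sup_mem {w : D.W | w.1.length ≤ m ∧ (w.1.length = m → ¬ D.GR a w.1)} D.La
    ((D.okR a m).map (D.evR a)) (fun w hw => by
      obtain ⟨Φ, hΦ, h⟩ := key w hw.1 hw.2
      exact ⟨Φ, hΦ, h⟩) x hx
  obtain ⟨Φ, hΦ, h⟩ := h3
  exact ⟨Φ, hΦ, h⟩

open Classical in
theorem expL (a : C) (n : ℕ) (y : D.H)
    (hy : y ∈ Finsupp.supported k k
      {w : D.W | w.1.length ≤ n ∧ (w.1.length = n → ¬ D.Good a w.1)}) :
    ∃ Ψ ∈ D.okL a n, D.evL a Ψ = y := by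
  have key : ∀ w : D.W, w.1.length ≤ n → (w.1.length = n → ¬ D.Good a w.1) →
      ∃ Ψ ∈ D.okL a n, D.evL a Ψ = Finsupp.single w (1 : k) := by
    intro w h1 h2
    by_cases hg : D.Good a w.1
    · have h3 : w.1.length + 1 ≤ n := by
        rcases Nat.lt_or_ge w.1.length n with h | h
        · exact h
        · exact absurd hg (h2 (le_antisymm h1 h))
      refine ⟨DFinsupp.single (w, a) (𝟙 a), ?_, ?_⟩
      · intro p hp
        rw [DFinsupp.single_apply, dif_neg]
        rintro rfl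
        exact hp ⟨hg, h3⟩
      · unfold evL
        rw [DFinsupp.lsum_single]
        exact D.place_id a w
    · obtain ⟨w, hw⟩ := w
      cases w with
      | nil => exact absurd (by intro l hl; simp at hl) hg
      | cons b t =>
        have hl : b.2.1 = a := by
          by_contra hne
          apply hg
          intro l' hl'
          simp only [List.head?_cons, Option.mem_def, Option.some.injEq] at hl'
          subst hl'
          exact fun h => hne h.symm
        obtain ⟨c, a', j⟩ := b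
        simp only at hl
        subst hl
        have hr := (D.red_cons (⟨c, a', j⟩ : D.Lt) t).1 hw
        refine ⟨DFinsupp.single ((⟨t, hr.2.2⟩ : D.W), c) (D.B c a' j), ?_, ?_⟩
        · intro p hp
          rw [DFinsupp.single_apply, dif_neg]
          rintro rfl
          exact hp ⟨hr.2.1, by simpa using h1⟩
        · unfold evL
          rw [DFinsupp.lsum_single]
          show D.place c a' _ (D.B c a' j) = _
          rw [D.place_basis]
          congr 1
          exact D.scons_red (w := ⟨t, hr.2.2⟩) hw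
  have h3 := sup_mem {w : D.W | w.1.length ≤ n ∧ (w.1.length = n → ¬ D.Good a w.1)} LinearMap.id
    ((D.okL a n).map (D.evL a)) (fun w hw => by
      obtain ⟨Φ, hΦ, h⟩ := key w hw.1 hw.2
      exact ⟨Φ, hΦ, h⟩) y hy
  obtain ⟨Φ, hΦ, h⟩ := h3
  exact ⟨Φ, hΦ, h⟩

theorem Hle_zero {x : D.H} (hx : x ∈ D.Hle 0) : x = (x D.nil) • Finsupp.single D.nil (1 : k) := by
  classical
  ext w
  by_cases h : w = D.nil
  · subst h; simp
  · have h1 : 0 < w.1.length := by
      rw [List.length_pos_iff]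
      intro h2
      exact h (Subtype.ext h2)
    rw [D.coeff_zero hx h1, Finsupp.smul_apply, Finsupp.single_apply,
      if_neg (fun h' => h h'.symm), smul_zero]

theorem exists_top {m : ℕ} {x : D.H} (hx : x ∈ D.Hle (m + 1)) (hx' : x ∉ D.Hle m) :
    ∃ u : D.W, x u ≠ 0 ∧ u.1.length = m + 1 := by
  by_contra hcon
  push Not at hcon
  apply hx'
  intro u hu
  have h1 : u.1.length ≤ m + 1 := hx hu
  have h2 := hcon u (Finsupp.mem_support_iff.1 hu)
  show u.1.length ≤ m
  omega

/-- the coefficients of top pairs are scalars -/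
theorem top_pair (a : C) (m n : ℕ) (Φ : Π₀ p : D.W × C, (a ⟶ p.2)) (hΦ : Φ ∈ D.okR a (m + 1))
    (Ψ : Π₀ q : D.W × C, (q.2 ⟶ a)) (hΨ : Ψ ∈ D.okL a (n + 1))
    (h0 : D.evR a Φ (D.evL a Ψ) = 0) (p q : D.W × C) (hp : p.1.1.length = m)
    (hq : q.1.1.length = n) (hp0 : Φ p ≠ 0) (hq0 : Ψ q ≠ 0) (j : D.I q.2 p.2)
    (hj : ¬ D.Isid ⟨q.2, p.2, j⟩) : (D.B q.2 p.2).repr (Ψ q ≫ Φ p) j = 0 := by
  classical
  have hgR : ∀ p, Φ p ≠ 0 → D.GR p.2 p.1.1 ∧ p.1.1.length + 1 ≤ m + 1 := by
    intro p hp; by_contra h; exact hp (hΦ p h)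
  have hgL : ∀ q, Ψ q ≠ 0 → D.Good q.2 q.1.1 ∧ q.1.1.length + 1 ≤ n + 1 := by
    intro q hq; by_contra h; exact hq (hΨ q h)
  have h1 : D.evR a Φ (D.evL a Ψ) = ∑ p ∈ Φ.support, ∑ q ∈ Ψ.support,
      D.Lam p.1.1 (D.place q.2 p.2 q.1 (Ψ q ≫ Φ p)) := by
    rw [D.evR_eq, D.evL_eq, LinearMap.sum_apply]
    refine Finset.sum_congr rfl fun p' _ => ?_
    rw [map_sum]
    refine Finset.sum_congr rfl fun q' hq' => ?_
    show D.Lam p'.1.1 (D.L a p'.2 (Φ p') _) = _
    rw [D.L_place _ _ (hgL q' (DFinsupp.mem_support_iff.1 hq')).1]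
  rw [h1] at h0
  have hu := (hgR p hp0).1
  have hw := (hgL q hq0).1
  have h2 := congrArg (fun z : D.H =>
    z (⟨p.1.1 ++ (⟨q.2, p.2, j⟩ : D.Lt) :: q.1.1, D.red_mid p.1 q.1 hu hw j hj⟩ : D.W)) h0
  simp only [Finsupp.finsetSum_apply, Finsupp.coe_zero, Pi.zero_apply] at h2
  rw [Finset.sum_eq_single p, Finset.sum_eq_single q] at h2
  · rw [D.top2_same p.1 q.1 hu hw j hj] at h2
    exact h2
  · intro q' hq' hne
    have h3 := hgL q' (DFinsupp.mem_support_iff.1 hq')
    refine D.top2_diff p.1 q.1 p.1 q'.1 hu hw hu h3.1 j hj (le_refl _) (by omega) ?_ _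
    rintro ⟨-, h4⟩
    exact hne h4
  · intro h; exact absurd (DFinsupp.mem_support_iff.2 hq0) h
  · intro p' hp' hne
    refine Finset.sum_eq_zero fun q' hq' => ?_
    have h3 := hgL q' (DFinsupp.mem_support_iff.1 hq')
    have h4 := hgR p' (DFinsupp.mem_support_iff.1 hp')
    refine D.top2_diff p.1 q.1 p'.1 q'.1 hu hw h4.1 h3.1 j hj (by omega) (by omega) ?_ _
    rintro ⟨h5, -⟩
    exact hne h5
  · intro h; exact absurd (DFinsupp.mem_support_iff.2 hp0) h

end Dat

end Pool.Agent.H277R3.NORE
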