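import Pool.Agent.H277R3.NORE.E

set_option autoImplicit false

open CategoryTheory

namespace Pool.Agent.H277R3.NORE

variable {k : Type} [Field k] {C : Type} [SmallCategory C] [Preadditive C] [Linear k C]

namespace Dat

variable (D : Dat k C)

theorem main (hnz : ∀ (X Y Z : C) (f : X ⟶ Y) (g : Y ⟶ Z), f ≠ 0 → g ≠ 0 → f ≫ g ≠ 0) :
    ∀ N m n : ℕ, m + n = N → ∀ x ∈ D.Hle m, ∀ y ∈ D.Hle n, D.La x y = 0 → x = 0 ∨ y = 0 := by
  classical
  intro N
  induction N using Nat.strong_induction_on with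
  | _ N ih =>
  intro m n hmn x hx y hy h0
  by_contra hcon
  push Not at hcon
  obtain ⟨hx0, hy0⟩ := hcon
  rcases m with _ | m
  · have h1 := D.Hle_zero hx
    have h2 : D.La x = (x D.nil) • (1 : Module.End k D.H) := by
      rw [h1, map_smul, D.La_single]
      simp [nil, Lam]
    rw [h2, LinearMap.smul_apply, Module.End.one_apply, smul_eq_zero] at h0
    rcases h0 with h | h
    · rw [h, zero_smul] at h1; exact hx0 h1
    · exact hy0 h
  rcases n with _ | n
  · have h1 := D.Hle_zero hy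
    rw [h1, map_smul, D.La_nil, smul_eq_zero] at h0
    rcases h0 with h | h
    · rw [h, zero_smul] at h1; exact hy0 h1
    · exact hx0 h
  have hxm : x ∉ D.Hle m := by
    intro h
    rcases ih (m + (n + 1)) (by omega) m (n + 1) rfl x h y hy h0 with h | h
    · exact hx0 h
    · exact hy0 h
  have hyn : y ∉ D.Hle n := by
    intro h
    rcases ih (m + 1 + n) (by omega) (m + 1) n rfl x hx y h h0 with h | h
    · exact hx0 h
    · exact hy0 h
  obtain ⟨u0, hu0, hu0l⟩ := D.exists_top hx hxm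
  obtain ⟨w0, hw0, hw0l⟩ := D.exists_top hy hyn
  have hjun : ∀ u w : D.W, u.1.length = m + 1 → w.1.length = n + 1 → x u ≠ 0 → y w ≠ 0 →
      ∃ l ∈ u.1.getLast?, ∃ l' ∈ w.1.head?, l.1 = l'.2.1 := by
    intro u w hu hw hxu hyw
    by_contra hcon
    push Not at hcon
    have hr : D.Red (u.1 ++ w.1) := (D.red_append _ _).2 ⟨u.2, w.2, hcon⟩
    have h1 := D.top1 (m + 1) (n + 1) x y hx hy u w hu hw hr
    rw [h0] at h1
    simp only [Finsupp.coe_zero, Pi.zero_apply] at h1
    rcases mul_eq_zero.1 h1.symm with h | h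
    · exact hxu h
    · exact hyw h
  obtain ⟨l0, hl0, l0', hl0', hl00⟩ := hjun u0 w0 hu0l hw0l hu0 hw0
  set a : C := l0'.2.1 with ha
  obtain ⟨Φ, hΦ, hΦe⟩ := D.expR a (m + 1) x (by
    intro u hu
    refine ⟨hx hu, fun hul hgr => ?_⟩
    obtain ⟨l, hl, l', hl', hll⟩ := hjun u w0 hul hw0l (Finsupp.mem_support_iff.1 hu) hw0
    have e : l' = l0' := by
      rw [Option.mem_def] at hl' hl0'
      rw [hl'] at hl0'
      exact Option.some.inj hl0'
    subst e
    exact hgr l hl hll)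
  obtain ⟨Ψ, hΨ, hΨe⟩ := D.expL a (n + 1) y (by
    intro w hw
    refine ⟨hy hw, fun hwl hgr => ?_⟩
    obtain ⟨l, hl, l', hl', hll⟩ := hjun u0 w hu0l hwl hu0 (Finsupp.mem_support_iff.1 hw)
    have e : l = l0 := by
      rw [Option.mem_def] at hl hl0
      rw [hl] at hl0
      exact Option.some.inj hl0
    subst e
    exact hgr l' hl' (hl00.symm.trans hll))
  have hgR : ∀ p, Φ p ≠ 0 → D.GR p.2 p.1.1 ∧ p.1.1.length + 1 ≤ m + 1 := by
    intro p hp; by_contra h; exact hp (hΦ p h)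
  have hgL : ∀ q, Ψ q ≠ 0 → D.Good q.2 q.1.1 ∧ q.1.1.length + 1 ≤ n + 1 := by
    intro q hq; by_contra h; exact hq (hΨ q h)
  have h00 : D.evR a Φ (D.evL a Ψ) = 0 := by rw [hΦe, hΨe, h0]
  obtain ⟨p0, hp0, hp0l⟩ : ∃ p, Φ p ≠ 0 ∧ p.1.1.length = m := by
    by_contra hcon
    push Not at hcon
    apply hxm
    have h1 : x = D.evR a Φ (Finsupp.single D.nil (1 : k)) := by rw [hΦe, D.La_nil]
    rw [h1, D.evR_eq, LinearMap.sum_apply]
    refine Submodule.sum_mem _ fun p hp => ?_
    have h2 := hgR p (DFinsupp.mem_support_iff.1 hp)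
    have h3 := hcon p (DFinsupp.mem_support_iff.1 hp)
    show D.Lam p.1.1 (D.L a p.2 (Φ p) _) ∈ _
    rw [D.L_nil]
    refine D.Hle_mono ?_ (D.Lam_mem p.1.1 (D.place_mem _ _ _ _))
    show 0 + 1 + p.1.1.length ≤ m
    omega
  obtain ⟨q0, hq0, hq0l⟩ : ∃ q, Ψ q ≠ 0 ∧ q.1.1.length = n := by
    by_contra hcon
    push Not at hcon
    apply hyn
    rw [← hΨe, D.evL_eq]
    refine Submodule.sum_mem _ fun q hq => ?_
    have h2 := hgL q (DFinsupp.mem_support_iff.1 hq)
    have h3 := hcon q (DFinsupp.mem_support_iff.1 hq)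
    refine D.Hle_mono ?_ (D.place_mem _ _ _ _)
    omega
  have htop := fun p q hp hq hp0 hq0 j hj =>
    D.top_pair a m n Φ hΦ Ψ hΨ h00 p q hp hq hp0 hq0 j hj
  obtain ⟨pu, pb⟩ := p0
  obtain ⟨qw, qc⟩ := q0
  simp only at hp0l hq0l
  obtain ⟨hcb, c, hc, hGF⟩ := D.scal (Ψ (qw, qc) ≫ Φ (pu, pb)) (hnz _ _ _ _ _ hq0 hp0)
    (fun j hj => htop (pu, pb) (qw, qc) hp0l hq0l hp0 hq0 j hj)
  simp only at hcb
  subst hcb
  set G : qc ⟶ a := Ψ (qw, qc) with hG
  set F : a ⟶ qc := Φ (pu, qc) with hF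
  have hGF' : G ≫ F = c • 𝟙 qc := by simpa using hGF
  have hFG : F ≫ G = c • 𝟙 a := by
    by_contra hne
    have h1 : (F ≫ G - c • 𝟙 a) ≠ 0 := sub_ne_zero.2 hne
    have h2 := hnz _ _ _ _ F h1 hp0
    apply h2
    rw [Preadditive.sub_comp, Category.assoc, hGF']
    simp
  -- the shorter pair
  set x' : D.H := D.La x (D.place qc a D.nil G) with hx'
  set y' : D.H := D.L a qc F y with hy'
  have hLx' : D.La x' = D.La x * (D.L qc a G : Module.End k D.H) := by
    have h1 : D.La x * D.La (D.place qc a D.nil G) = D.La x' := D.La_mem_S x _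
    rw [← h1, D.La_place D.nil (by intro b hb; simp [nil] at hb)]
    congr 1
  have hLGF : ∀ z : D.H, D.L qc a G (D.L a qc F z) = c • z := by
    intro z
    rw [D.L_mul, hFG, map_smul, D.L_id]
    rfl
  have hprod : D.La x' y' = 0 := by
    rw [hLx']
    show D.La x (D.L qc a G (D.L a qc F y)) = 0
    rw [hLGF, map_smul, h0, smul_zero]
  have hx'm : x' ∈ D.Hle m := by
    rw [hx', ← hΦe, D.evR_eq, LinearMap.sum_apply]
    refine Submodule.sum_mem _ fun p hp => ?_
    have hpn := DFinsupp.mem_support_iff.1 hp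
    have h2 := hgR p hpn
    show D.Lam p.1.1 (D.L a p.2 (Φ p) (D.place qc a D.nil G)) ∈ _
    rw [D.L_place _ _ (by intro b hb; simp [nil] at hb)]
    by_cases h3 : p.1.1.length = m
    · refine D.Hle_mono ?_ (D.Lam_mem p.1.1 (D.place_scal D.nil _
        (fun j hj => htop p (qw, qc) h3 hq0l hpn hq0 j hj)))
      show 0 + p.1.1.length ≤ m
      omega
    · refine D.Hle_mono ?_ (D.Lam_mem p.1.1 (D.place_mem _ _ _ _))
      show 0 + 1 + p.1.1.length ≤ m
      omega
  have hy'n : y' ∈ D.Hle n := by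
    rw [hy', ← hΨe, D.evL_eq, map_sum]
    refine Submodule.sum_mem _ fun q hq => ?_
    have hqn := DFinsupp.mem_support_iff.1 hq
    have h2 := hgL q hqn
    rw [D.L_place _ _ h2.1]
    by_cases h3 : q.1.1.length = n
    · refine D.Hle_mono ?_ (D.place_scal q.1 _
        (fun j hj => htop (pu, qc) q hp0l h3 hp0 hqn j hj))
      omega
    · refine D.Hle_mono ?_ (D.place_mem _ _ _ _)
      omega
  rcases ih (m + n) (by omega) m n rfl x' hx'm y' hy'n hprod with h | h
  · have h1 : D.La x * (D.L qc a G : Module.End k D.H) = 0 := by rw [← hLx', h, map_zero]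
    have h2 : c • x = 0 := by
      have h3 := LinearMap.congr_fun h1 (D.L a qc F (Finsupp.single D.nil (1 : k)))
      have h4 : D.La x (D.L qc a G (D.L a qc F (Finsupp.single D.nil (1 : k)))) = 0 := h3
      rw [hLGF, map_smul, D.La_nil] at h4
      exact h4
    rcases smul_eq_zero.1 h2 with h | h
    · exact hc h
    · exact hx0 h
  · have h1 := hLGF y
    rw [← hy', h, map_zero] at h1
    rcases smul_eq_zero.1 h1.symm with h | h
    · exact hc h
    · exact hy0 h

end Dat

theorem t0 (hnz : ∀ (X Y Z : C) (f : X ⟶ Y) (g : Y ⟶ Z), f ≠ 0 → g ≠ 0 → f ≫ g ≠ 0)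
    (hid : ∀ X : C, 𝟙 X ≠ 0) :
    ∃ (S : Type) (_ : Ring S) (_ : Algebra k S) (_ : IsDomain S)
      (F : ∀ X Y : C, (X ⟶ Y) →ₗ[k] S),
      (∀ X Y : C, Function.Injective (F X Y)) ∧ (∀ X : C, F X X (𝟙 X) = 1) ∧
      ∀ (X Y Z : C) (f : X ⟶ Y) (g : Y ⟶ Z), F X Z (f ≫ g) = F Y Z g * F X Y f := by
  classical
  obtain ⟨D⟩ := exists_dat (k := k) hid
  have hrep : ∀ x : D.S, (x : Module.End k D.H) = D.La (x.1 (Finsupp.single D.nil (1 : k))) := by
    intro x
    have h1 := x.2 (Finsupp.single D.nil (1 : k))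
    rw [← h1, D.La_single]
    exact (mul_one _).symm
  letI iR : Ring D.S := Algebra.semiringToRing k
  have hdom : IsDomain D.S := by
    haveI : Nontrivial D.S := by
      refine ⟨⟨1, 0, fun h => ?_⟩⟩
      have h1 := congrArg (fun z : D.S => z.1 (Finsupp.single D.nil (1 : k))) h
      have h2 : (Finsupp.single D.nil (1 : k) : D.H) = 0 := h1
      exact one_ne_zero (Finsupp.single_eq_zero.1 h2)
    haveI : NoZeroDivisors D.S := by
      refine ⟨fun {x y} hxy => ?_⟩
      set X : D.H := x.1 (Finsupp.single D.nil (1 : k)) with hX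
      set Y : D.H := y.1 (Finsupp.single D.nil (1 : k)) with hY
      have h1 : D.La X Y = 0 := by
        rw [hX, ← hrep x]
        have h2 := congrArg (fun z : D.S => z.1 (Finsupp.single D.nil (1 : k))) hxy
        exact h2
      obtain ⟨m, hm⟩ : ∃ m, X ∈ D.Hle m :=
        ⟨X.support.sup fun w => w.1.length, fun w hw =>
          Finset.le_sup (f := fun w : D.W => w.1.length) hw⟩
      obtain ⟨n, hn⟩ : ∃ n, Y ∈ D.Hle n :=
        ⟨Y.support.sup fun w => w.1.length, fun w hw =>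
          Finset.le_sup (f := fun w : D.W => w.1.length) hw⟩
      rcases D.main hnz (m + n) m n rfl X hm Y hn h1 with h | h
      · left; apply Subtype.ext; rw [hrep x, ← hX, h, map_zero]; rfl
      · right; apply Subtype.ext; rw [hrep y, ← hY, h, map_zero]; rfl
    exact NoZeroDivisors.to_isDomain D.S
  let F : ∀ X Y : C, (X ⟶ Y) →ₗ[k] D.S := fun X Y =>
    { toFun := fun f => ⟨D.L X Y f, D.L_mem_S X Y f⟩
      map_add' := fun f g => Subtype.ext (map_add _ f g)
      map_smul' := fun c f => Subtype.ext (map_smul _ c f) }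
  refine ⟨D.S, iR, inferInstance, hdom, F, ?_, ?_, ?_⟩
  · intro X Y f g hfg
    have h1 : D.L X Y f = D.L X Y g := congrArg Subtype.val hfg
    have h2 : D.L X Y (f - g) (Finsupp.single D.nil (1 : k)) = 0 := by
      rw [map_sub, h1, sub_self]; rfl
    by_contra hne
    have hne' : f - g ≠ 0 := sub_ne_zero.2 hne
    rw [D.L_nil] at h2
    -- all coefficients vanish
    apply hne'
    by_cases hs : ∀ j : D.I X Y, ¬ D.Isid ⟨X, Y, j⟩ → (D.B X Y).repr (f - g) j = 0
    · obtain ⟨rfl, c, hc, he⟩ := D.scal (f - g) hne' hs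
      rw [he, eqToHom_refl, map_smul, D.place_id] at h2
      rcases smul_eq_zero.1 h2 with h | h
      · exact absurd h hc
      · exact absurd (Finsupp.single_eq_zero.1 h) one_ne_zero
    · push Not at hs
      obtain ⟨j, hj, hj'⟩ := hs
      exfalso
      apply hj'
      have h3 := D.top2_same D.nil D.nil (Z := X) (Y := Y) (by intro l hl; simp [Dat.nil] at hl)
        (by intro l hl; simp [Dat.nil] at hl) j hj (f - g)
      rw [← h3]
      have h4 : D.Lam D.nil.1 (D.place X Y D.nil (f - g)) = D.place X Y D.nil (f - g) := rfl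
      rw [h4, h2]
      rfl
  · intro X
    exact Subtype.ext (D.L_id X)
  · intro X Y Z f g
    exact Subtype.ext (D.L_mul' f g).symm

end Pool.Agent.H277R3.NORE
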