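import Pool.Agent.H277R3.NORE.T0
import Pool.Agent.H354.NORE.Stmts

set_option autoImplicit false

namespace Pool.Agent.H277R3.NORE

theorem taskT0 (k : Type) [Field k] : H354P.TaskT0 k := by
  intro C _ _ _ hnz hid _
  exact t0 hnz hid

end Pool.Agent.H277R3.NORE
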